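import Pool.Agent.Helper95.AU.Defs
import Pool.Agent.Helper95.AG.Whole
import Pool.Agent.Helper23.AF.STend

/-! # Project AU: what the component part says about the additive force -/

set_option autoImplicit false
open MeasureTheory Real Set Filter Topology

namespace Pool.Agent.Helper95.AU

open Pool.Agent.Helper18.UC (nn LL rep toT)
open Pool.Agent.Helper46.QP (TT Td)
open Pool.Agent.Helper82.AN (sq)
open Pool.Agent.Helper95.AF (st po mt pM tst Fa gA num_pr)
open Pool.Agent.Helper95.AG (pr Fs_pr gN_pr)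

variable {d : ℕ}

/-- eigenfunctions on `O` are characters of the base -/
def Eig (α : Td d) (a : ℝ) (b : Td d → ℝ) (O : Set (Td d × TT)) : Prop :=
  ∀ (ξ : ℂ) (h : Td d × TT → ℂ), Measurable h → (∀ᵐ p, p ∈ O → h (Fa α a b p) = ξ * h p) →
    (∀ᵐ p, p ∈ O → h p = 0) ∨ ∃ (k : Fin d → ℤ) (c : ℂ), fourier 1 (∑ m, k m • α m) = ξ ∧
      ∀ᵐ p : Td d × TT, p ∈ O → h p = c * fourier 1 (∑ m, k m • p.1 m)

theorem comp : ∃ A₂ : ℝ, 10 ≤ A₂ ∧ ∀ (d : ℕ) (α : Td d), (∀ k : Fin d → ℤ, k ≠ 0 → ∑ m, k m • α m ≠ 0) → ∀ a : ℝ, A₂ ≤ |a| →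
    ∀ b : Td d → ℝ, Continuous b → ∃ (lam : Td d × TT → ℝ) (O : Set (Td d × TT)), Measurable lam ∧ MeasurableSet O ∧
      Fa α a b ⁻¹' O = O ∧ MeasurePreserving (Fa α a b) volume volume ∧
      (∀ p, 0 ≤ lam p ∧ lam p ≤ Real.log (LL a)) ∧ (∀ᵐ p, lam (Fa α a b p) = lam p) ∧
      (∀ᵐ p, Tendsto (fun n : ℕ => Real.log (gA α a b n p) / n) atTop (𝓝 (lam p))) ∧
      (∀ᵐ p, p ∈ O ↔ 7 / 8 * Real.log |a| < lam p) ∧
      (∫ p in O, lam p ≤ ∫ p in O, Real.log (|2 + 2 * π * a * (fourier 1 p.2.1 : ℂ).re| + 2)) ∧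
      Eig α a b O ∧ (∃ Λ : ℝ, ∀ᵐ p, p ∈ O → lam p = Λ) ∧
      ∀ x : ℝ, (∃ i₀ : ℕ, ∀ i ≥ i₀, x ≤ mg α a b (2 ^ i) / 2 ^ i) → x ≤ ∫ p, lam p := by
  obtain ⟨A₂, hA₂⟩ := num_pr
  refine ⟨max 10 A₂, le_max_left _ _, fun d α hind a ha b hb => ?_⟩
  have hnum := hA₂ a ((le_max_right _ _).trans ha)
  have hfm : Measurable (pr a b : Td d → ℝ × ℝ) := measurable_const.prodMk hb.measurable
  have hLL : ∀ θ, LL ((pr a b : Td d → ℝ × ℝ) θ).1 ≤ LL a := fun θ => le_rfl
  obtain ⟨lam, hlm, hlb, hli, hlt, hlo⟩ := Pool.Agent.Helper23.AF.ex_lam (α := α) hfm hLL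
  have hom := Pool.Agent.Helper23.AF.meas_om (α := α) hfm (7 / 8 * Real.log |a|)
  have hinv := Pool.Agent.Helper23.AF.om_inv (α := α) (f := pr a b) hLL (7 / 8 * Real.log |a|)
  have hmp := Pool.Agent.Helper23.AF.Fs_mp (α := α) hfm
  have hle := Pool.Agent.Helper23.AF.lam_le hfm hLL hlt hom hinv
  refine ⟨lam, Pool.Agent.Helper23.AF.om α (pr a b) (7 / 8 * Real.log |a|), hlm, hom, ?_, ?_, hlb, ?_, ?_, hlo _, ?_, ?_, ?_, ?_⟩
  · rw [Fs_pr] at hinv
    exact hinv
  · rw [Fs_pr] at hmp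
    exact hmp
  · rw [Fs_pr] at hli
    exact hli
  · filter_upwards [hlt] with p hp
    exact hp.congr fun n => by rw [gN_pr]
  · refine hle.trans (le_of_eq ?_)
    refine setIntegral_congr_fun hom fun p _ => ?_
    show Real.log (|2 + 2 * π * (((a : ℂ)) * (fourier 1 p.2.1 : ℂ)).re| + 2) = _
    rw [Complex.re_ofReal_mul, ← mul_assoc]
  · intro ξ h hm hh
    rw [← Fs_pr] at hh
    exact Pool.Agent.Helper23.AF.eig_om hind hfm hLL hnum ξ hm hh
  · exact Pool.Agent.Helper23.AF.lam_const hind hfm hLL hnum hlm hli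
  · intro x hx
    refine Pool.Agent.Helper23.AF.lam_mean hfm hLL hlt ?_
    obtain ⟨i₀, h⟩ := hx
    refine ⟨i₀, fun i hi => (h i hi).trans (le_of_eq ?_)⟩
    unfold mg
    congr 1
    refine integral_congr_ae (Eventually.of_forall fun p => ?_)
    show Real.log (gA α a b (2 ^ i) p) = Real.log (Pool.Agent.Helper23.AF.gN α (pr a b) (2 ^ i) p)
    rw [gN_pr]

/-- ergodicity from the eigenfunctions on a set of full measure -/
theorem erg_of {α : Td d} (hind : ∀ k : Fin d → ℤ, k ≠ 0 → ∑ m, k m • α m ≠ 0) {a : ℝ} {b : Td d → ℝ}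
    (hmp : MeasurePreserving (Fa α a b) volume volume) (h : Eig α a b univ) : Ergodic (Fa α a b) volume := by
  refine ⟨hmp, ⟨fun s hs hsi => ?_⟩⟩
  rw [Filter.eventuallyConst_set']
  have h1 : ∀ᵐ p, p ∈ (univ : Set (Td d × TT)) → s.indicator (fun _ => (1 : ℂ)) (Fa α a b p) =
      1 * s.indicator (fun _ => (1 : ℂ)) p := by
    refine Eventually.of_forall fun p _ => ?_
    have h2 : (s.indicator (fun _ => (1 : ℂ)) (Fa α a b p)) = (Fa α a b ⁻¹' s).indicator (fun _ => (1 : ℂ)) p := rfl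
    rw [h2, hsi, one_mul]
  rcases h 1 _ (measurable_const.indicator hs) h1 with h0 | ⟨k, c, hk, hc⟩
  · left
    filter_upwards [h0] with p hp
    have : p ∉ s := by
      intro hn
      have h3 := hp (mem_univ p)
      rw [indicator_of_mem hn] at h3
      exact one_ne_zero h3
    exact eq_false this
  · have hk0 : k = 0 := by
      by_contra hne
      apply hind k hne
      rw [fourier_one] at hk
      have h2 : (∑ m, k m • α m).toCircle = 1 := by
        ext
        rw [hk]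
        rfl
      rw [← AddCircle.toCircle_zero (T := (1 : ℝ))] at h2
      exact AddCircle.injective_toCircle one_ne_zero h2
    have hc' : ∀ᵐ p, s.indicator (fun _ => (1 : ℂ)) p = c := by
      filter_upwards [hc] with p hp
      have h3 := hp (mem_univ p)
      rw [hk0] at h3
      simpa only [Pi.zero_apply, zero_smul, Finset.sum_const_zero, fourier_eval_zero, mul_one] using h3
    by_cases h3 : c = 1
    · right
      filter_upwards [hc'] with p h6
      rw [h3] at h6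
      have : p ∈ s := by
        by_contra hn
        rw [indicator_of_notMem hn] at h6
        exact zero_ne_one h6
      exact eq_true this
    · left
      filter_upwards [hc'] with p h6
      have : p ∉ s := by
        intro hn
        rw [indicator_of_mem hn] at h6
        exact h3 h6.symm
      exact eq_false this

end Pool.Agent.Helper95.AU
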