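import Pool.Agent.Helper95.AG.Defs

/-! # Project AU (MP_9ee088_an): the additive quasi-periodic force of every size from `exp (-|a| ^ (2 - ε))` on. Definitions

The growth part of project AN (`Helper82/AN`) for the additive force, in the notation of project AF. -/

set_option autoImplicit false
open MeasureTheory Real Set Filter
open scoped ENNReal

namespace Pool.Agent.Helper95.AU

open Pool.Agent.Helper18.UC (nn LL sqo rep toT)
open Pool.Agent.Helper46.QP (TT Td)
open Pool.Agent.Helper82.AN (Ow lawL eta Hw sq SepR)
open Pool.Agent.Helper95.AF (st po mt pM shb Fa gA up5 un5 frc DC Ho)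

variable {d : ℕ}

/-- the loss at the junction of two orbit pieces of length `m` (`los` in project AN) -/
noncomputable def lo (a : ℝ) (b : ℕ → ℝ) (m : ℕ) (q : ℝ × ℝ) : ℝ :=
  Real.log (nn (pM a b m q)) + Real.log (nn (pM a (shb b m) m (po a b m q))) - Real.log (nn (pM a b (2 * m) q))

/-- the mean loss over the phase space -/
noncomputable def ml (α : Td d) (a : ℝ) (b : Td d → ℝ) (m : ℕ) : ℝ :=
  ∫ p : Td d × TT, lo a (sq α b p.1) m (rep p.2)

/-- the mean growth -/
noncomputable def mg (α : Td d) (a : ℝ) (b : Td d → ℝ) (n : ℕ) : ℝ := ∫ p : Td d × TT, Real.log (gA α a b n p)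

end Pool.Agent.Helper95.AU
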