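import Pool.Agent.Helper95.AU.Comp
import Pool.Agent.Helper82.AN.Eta
import Pool.Agent.Helper94.AU.Growth
import Pool.Agent.Helper65.AU.LosAll
import Pool.Agent.Helper30.AU.ConcFin
import Pool.Agent.Helper24.AU.Init
import Pool.Agent.Helper80.AU.Big
import Pool.Agent.Helper5.AG.AllPar
import Pool.Agent.Helper83.AG.FX

/-! # Project AU: the additive force of every size, all parameters at once -/

set_option autoImplicit false
open MeasureTheory Real Set Filter Topology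
open scoped ENNReal

namespace Pool.Agent.Helper95.AU

open Pool.Agent.Helper18.UC (nn LL rep toT)
open Pool.Agent.Helper46.QP (TT Td)
open Pool.Agent.Helper82.AN (Ik Ow lawL wt bas eta Hw sq)
open Pool.Agent.Helper95.AF (po Fa gA frc DC Ho)

variable {d : ℕ}

theorem ho_cont {f : Td d → ℝ} (h : Ho f) : Continuous f := by
  obtain ⟨K, r, hr, h⟩ := h
  rw [continuous_iff_continuousAt]
  intro x
  rw [ContinuousAt, tendsto_iff_dist_tendsto_zero]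
  have h1 : Tendsto (fun y => K * dist y x ^ r) (𝓝 x) (𝓝 0) := by
    have h2 : Tendsto (fun y : Td d => dist y x) (𝓝 x) (𝓝 0) := by
      have := (tendsto_id (x := 𝓝 x)).dist (tendsto_const_nhds (x := x))
      simpa using this
    have h3 := h2.rpow_const (p := r) (Or.inr hr.le)
    rw [Real.zero_rpow hr.ne'] at h3
    simpa using h3.const_mul K
  exact squeeze_zero (fun _ => dist_nonneg) (fun y => h y x) h1

/-- growth of the mean -/
theorem growth (hd : 0 < d) {γ τ : ℝ} (hγ : 0 < γ) (h1 : 1 / (d : ℝ) ≤ τ) (h2 : τ * γ < 1) {k : ℕ}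
    {e : Fin k → Td d → ℝ} (he : ∀ i, Ho (e i)) {ε : ℝ} (hε : 0 < ε) (hε1 : ε < 2) :
    ∃ κ : ℝ, 0 < κ ∧ ∀ᵐ w ∂lawL d, ∀ c₀ : ℝ, 0 < c₀ → ∃ A₁ : ℝ, ∀ α : Td d, DC c₀ τ α →
      ∀ (a : ℝ) (U : Fin (k + 1) → ℝ), A₁ ≤ |a| → (∀ j, |U j| ≤ |a|) → Real.exp (-|a| ^ (2 - ε)) ≤ |U 0| →
      ∃ i₀ : ℕ, ∀ i ≥ i₀, Real.log (π * |a|) - |a| ^ (-κ) ≤ mg α a (frc γ e U w) (2 ^ i) / 2 ^ i :=
  Pool.Agent.Helper94.AU.growth_of hγ he
    (fun D _ h => Pool.Agent.Helper65.AU.los_all_of Pool.Agent.Helper30.AU.conc_lo hd hγ h1 h2 he D h)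
    Pool.Agent.Helper24.AU.init_g hε hε1

/-- the exponent of the lifts on a set -/
theorem lim_fd_on {α : Td d} {a : ℝ} {b : Td d → ℝ} {S : Set (Td d × TT)} {Λ : ℝ}
    (h : ∀ᵐ p : Td d × TT, p ∈ S → Tendsto (fun n : ℕ => Real.log (gA α a b n p) / n) atTop (𝓝 Λ)) :
    ∀ᵐ θ : Td d, ∀ᵐ z : ℝ × ℝ, (θ, ((z.1 : UnitAddCircle), (z.2 : UnitAddCircle))) ∈ S →
      Tendsto (fun n : ℕ => Real.log ‖fderiv ℝ (po a (sq α b θ) n) z‖ / n) atTop (𝓝 Λ) := by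
  have h2 := Measure.ae_ae_of_ae_prod h
  filter_upwards [h2] with θ hθ
  filter_upwards [Pool.Agent.Helper46.QP.ae_tor hθ] with z hz hzS
  refine Pool.Agent.Helper95.AF.po_lim ((hz hzS).congr fun n => ?_)
  show Real.log (nn (Pool.Agent.Helper95.AF.pM a (sq α b θ) n (rep (toT z)))) / n = _
  rw [Pool.Agent.Helper95.AF.pM_tor]

/-- the conclusion -/
def GoodU (ε κ : ℝ) (α : Td d) (a q : ℝ) (b : Td d → ℝ) : Prop :=
  ∃ O : Set (Td d × TT), MeasurableSet O ∧ Fa α a b ⁻¹' O = O ∧ 1 - |a| ^ (-κ) ≤ volume.real O ∧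
    (|a| ^ (-1 + ε) ≤ |q| → O = univ ∧ Ergodic (Fa α a b) volume) ∧
    (∀ (ξ : ℂ) (h : Td d × TT → ℂ), Measurable h → (∀ᵐ p, p ∈ O → h (Fa α a b p) = ξ * h p) →
      (∀ᵐ p, p ∈ O → h p = 0) ∨ ∃ (k : Fin d → ℤ) (c : ℂ), fourier 1 (∑ m, k m • α m) = ξ ∧
        ∀ᵐ p : Td d × TT, p ∈ O → h p = c * fourier 1 (∑ m, k m • p.1 m)) ∧
    ∃ L : ℝ, |L - Real.log (π * |a|)| ≤ |a| ^ (-κ) ∧ ∀ᵐ θ : Td d, ∀ᵐ z : ℝ × ℝ,
      (θ, ((z.1 : UnitAddCircle), (z.2 : UnitAddCircle))) ∈ O →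
      Tendsto (fun n : ℕ => Real.log ‖fderiv ℝ (po a (sq α b θ) n) z‖ / n) atTop (𝓝 L)

/-- **main theorem** -/
theorem final {γ τ : ℝ} (hd : 0 < d) (hγ : 0 < γ) (h1 : 1 / d ≤ τ) (h2 : τ * γ < 1) {k : ℕ} {e : Fin k → Td d → ℝ}
    (he : ∀ i, Ho (e i)) {ε : ℝ} (hε : 0 < ε) (hε2 : ε < 2) : ∃ κ : ℝ, 0 < κ ∧ ∀ᵐ w ∂lawL d, ∀ D : ℝ, 0 < D → ∃ A : ℝ,
      ∀ α : Td d, (∀ k : Fin d → ℤ, k ≠ 0 → ∑ m, k m • α m ≠ 0) → DC D τ α → ∀ (a q : ℝ) (s : Fin k → ℝ), A ≤ |a| →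
      Real.exp (-|a| ^ (2 - ε)) ≤ |q| → |q| ≤ |a| → (∀ i, |s i| ≤ |a|) →
      GoodU ε κ α a q (fun θ => (∑ i, s i * e i θ) + q * eta γ w θ) := by
  obtain ⟨κ₀, hκ₀, hg⟩ := growth hd hγ h1 h2 he hε hε2
  obtain ⟨κ, hκ, A₂, hA₂1, hbig⟩ := Pool.Agent.Helper80.AU.big hκ₀
  obtain ⟨A₃, hA₃1, hcomp⟩ := comp
  refine ⟨κ, hκ, ?_⟩
  -- the whole space
  have hε' : 0 < min (ε / 2) (1 / 2) := lt_min (by linarith) (by norm_num)
  have hall := Pool.Agent.Helper5.AG.all_par (ε := min (ε / 2) (1 / 2)) (h := 1 / 200) hε' (min_le_right _ _)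
    (by norm_num) le_rfl hd hγ h1 h2 he
  filter_upwards [hg, hall, Pool.Agent.Helper82.AN.Hw_ae (d := d) hγ] with w hw1 hw2 hw3 D hD
  obtain ⟨A₁, hA₁⟩ := hw1 D hD
  obtain ⟨A₄, hA₄1, hA₄⟩ := hw2 D hD
  refine ⟨max (max A₁ A₂) (max A₃ A₄), fun α hind hα a q s ha hq0 hq1 hs => ?_⟩
  have ha1 : A₁ ≤ |a| := ((le_max_left _ _).trans (le_max_left _ _)).trans ha
  have ha2 : A₂ ≤ |a| := ((le_max_right _ _).trans (le_max_left _ _)).trans ha
  have ha3 : A₃ ≤ |a| := ((le_max_left _ _).trans (le_max_right _ _)).trans ha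
  have ha4 : A₄ ≤ |a| := ((le_max_right _ _).trans (le_max_right _ _)).trans ha
  have ha10 : 10 ≤ |a| := hA₃1.trans ha3
  have hlog : 0 < Real.log |a| := Real.log_pos (by linarith)
  have hU : ∀ i, |(Fin.cons q s : Fin (k + 1) → ℝ) i| ≤ |a| := fun i => Fin.cases hq1 (fun j => hs j) i
  obtain ⟨b, hb⟩ : ∃ b : Td d → ℝ, b = fun θ => (∑ i, s i * e i θ) + q * eta γ w θ := ⟨_, rfl⟩
  have hfrc : frc γ e (Fin.cons q s : Fin (k + 1) → ℝ) w = b := by rw [hb]; rfl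
  have hbc : Continuous b := by
    rw [hb]
    exact (continuous_finsetSum _ fun i _ => (ho_cont (he i)).const_mul _).add
      ((Pool.Agent.Helper82.AN.eta_cont hw3).const_mul q)
  rw [← hb]
  obtain ⟨lam, O, hlm, hO, hOi, hmp, hlb, hli, hlt, hlO, hlle, hEig, ⟨Λ, hΛ⟩, hmean⟩ := hcomp d α hind a ha3 b hbc
  have hm := hA₁ α hα a (Fin.cons q s) ha1 hU hq0
  rw [hfrc] at hm
  obtain ⟨hvol, hval⟩ := hbig d a lam O ha2 hlm hO hlb hlO hlle (hmean _ hm)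
  have hval := hval Λ hΛ
  have hvol' : 1 - |a| ^ (-κ) ≤ volume.real O := by
    have := probReal_compl_eq_one_sub (μ := (volume : Measure (Td d × TT))) hO
    linarith
  have hlt' : ∀ᵐ p : Td d × TT, p ∈ O → Tendsto (fun n : ℕ => Real.log (gA α a b n p) / n) atTop (𝓝 Λ) := by
    filter_upwards [hlt, hΛ] with p a1 a2 hp
    rw [← a2 hp]
    exact a1
  by_cases hw : |a| ^ (-1 + ε) ≤ |q|
  · -- whole space
    have hq' : |a| ^ (2 * min (ε / 2) (1 / 2) - 1) ≤ |(Fin.cons q s : Fin (k + 1) → ℝ) 0| := by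
      refine (Real.rpow_le_rpow_of_exponent_le (by linarith) ?_).trans hw
      have := min_le_left (ε / 2) (1 / 2)
      linarith
    have hLv := hA₄ α a (Fin.cons q s) hα ha4 hq' hU
    rw [hfrc] at hLv
    have hfx := Pool.Agent.Helper83.AG.fin_exp hind ha10 hbc hLv hlm hli hlt
    have hfull : ∀ᵐ p, p ∈ O := by
      filter_upwards [hfx, hlO] with p h3 h4
      rw [h4]
      nlinarith
    have hEu : Eig α a b univ := by
      intro ξ h hm hh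
      rcases hEig ξ h hm (hh.mono fun p hp _ => hp (mem_univ p)) with h0 | ⟨k, c, h3, h4⟩
      · left
        filter_upwards [h0, hfull] with p h5 h6 _
        exact h5 h6
      · refine Or.inr ⟨k, c, h3, ?_⟩
        filter_upwards [h4, hfull] with p h5 h6 _
        exact h5 h6
    refine ⟨univ, MeasurableSet.univ, preimage_univ, ?_, fun _ => ⟨rfl, erg_of hind hmp hEu⟩, hEu, Λ, hval, lim_fd_on ?_⟩
    · exact hvol'.trans (measureReal_mono (subset_univ _))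
    · filter_upwards [hlt', hfull] with p h5 h6 _
      exact h5 h6
  · exact ⟨O, hO, hOi, hvol', fun h => absurd h hw, hEig, Λ, hval, lim_fd_on hlt'⟩

end Pool.Agent.Helper95.AU
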